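import Pool.Agent.W_d741l_h62.Lambda

/-! The ten central twists of the connected standard parabolic subgroups of `A(H4)`, their linking
vectors, and independence statements. Index: 0 1 2 3 = single nodes, 4 = {0,1}, 5 = {1,2},
6 = {2,3}, 7 = {0,1,2}, 8 = {1,2,3}, 9 = everything. -/

namespace LK

open FH

/-- positive word `u ^ k` -/
def rep (u : List (Fin 4)) : ℕ → List (Fin 4 × Bool)
  | 0 => []
  | k + 1 => u.map (fun i => (i, true)) ++ rep u k

/-- the words of the twists -/
def tw : Fin 10 → List (Fin 4 × Bool) :=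
  ![rep [0] 1, rep [1] 1, rep [2] 1, rep [3] 1, rep [0, 1] 5, rep [1, 2] 3, rep [2, 3] 3,
    rep [0, 1, 2] 10, rep [1, 2, 3] 4, rep [0, 1, 2, 3] 30]

/-- the twists -/
def z (T : Fin 10) : Artin mH4 := wd s (tw T)

/-- the node sets as bit masks -/
def mask : Fin 10 → ℕ := ![1, 2, 4, 8, 3, 6, 12, 7, 14, 15]

/-- indicator of the reflections of the parabolic subgroup `T` -/
def ind (T : Fin 10) (r : Fin 60) : ℤ :=
  if ((suppCode >>> (4 * r.val)) % 16) &&& (15 - mask T) = 0 then 1 else 0

/-- factor of the linking vector of `z T ^ 2` -/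
def cz : Fin 10 → ℤ := ![2, 2, 2, 2, 4, 4, 4, 4, 4, 4]

theorem cz_ne (T : Fin 10) : cz T ≠ 0 := by
  fin_cases T <;> simp [cz]

theorem tw_check : ∀ T : Fin 10, ∀ r : Fin 60, ev (tw T ++ tw T) r = (r, cz T * ind T r) := by
  decide +kernel

theorem wd_append {G : Type*} [Group G] (f : Fin 4 → G) (u v : List (Fin 4 × Bool)) :
    wd f (u ++ v) = wd f u * wd f v := by
  induction u with
  | nil => simp [wd]
  | cons x t ih => rcases x with ⟨i, b⟩; cases b <;> simp [wd, ih, mul_assoc]

theorem pure_z (T : Fin 10) : Pure (z T ^ 2) (fun r => cz T * ind T r) := by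
  have h := pure_wd (tw T ++ tw T) _ (tw_check T)
  rwa [wd_append, ← pow_two] at h

theorem pure_zk (T : Fin 10) (k : ℤ) : Pure (z T ^ (2 * k)) (fun r => k * cz T * ind T r) := by
  have h := (pure_z T).zpow k
  rw [← zpow_natCast, ← zpow_mul] at h
  have e : (k • fun r => cz T * ind T r) = fun r => k * cz T * ind T r := by
    funext r; simp [mul_assoc]
  rw [e] at h
  exact h

theorem wd_map {G : Type*} [Group G] (f : Fin 4 → G) (u : List (Fin 4)) :
    wd f (u.map (fun i => (i, true))) = (u.map f).prod := by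
  induction u with
  | nil => simp [wd]
  | cons x t ih => simp [wd, ih]

theorem wd_rep {G : Type*} [Group G] (f : Fin 4 → G) (u : List (Fin 4)) (k : ℕ) :
    wd f (rep u k) = (u.map f).prod ^ k := by
  induction k with
  | zero => simp [rep, wd]
  | succ k ih => rw [rep, wd_append, wd_map, ih, pow_succ']

/-- The ten vectors `ind T` are linearly independent. -/
theorem lin (n : Fin 10 → ℤ) (h : ∀ r, ∑ T, n T * ind T r = 0) : n = 0 := by
  have e : ∀ (T : Fin 10) (r : Fin 60), ind T r =
      if ((suppCode >>> (4 * r.val)) % 16) &&& (15 - mask T) = 0 then 1 else 0 := fun _ _ => rfl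
  have i0 : ∀ T, ind T 0 = ![1, 0, 0, 0, 1, 0, 0, 1, 0, 1] T := by decide +kernel
  have i1 : ∀ T, ind T 1 = ![0, 1, 0, 0, 1, 1, 0, 1, 1, 1] T := by decide +kernel
  have i2 : ∀ T, ind T 2 = ![0, 0, 1, 0, 0, 1, 1, 1, 1, 1] T := by decide +kernel
  have i3 : ∀ T, ind T 3 = ![0, 0, 0, 1, 0, 0, 1, 0, 1, 1] T := by decide +kernel
  have i4 : ∀ T, ind T 4 = ![0, 0, 0, 0, 1, 0, 0, 1, 0, 1] T := by decide +kernel
  have i6 : ∀ T, ind T 6 = ![0, 0, 0, 0, 0, 1, 0, 1, 1, 1] T := by decide +kernel
  have i7 : ∀ T, ind T 7 = ![0, 0, 0, 0, 0, 0, 1, 0, 1, 1] T := by decide +kernel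
  have i9 : ∀ T, ind T 9 = ![0, 0, 0, 0, 0, 0, 0, 1, 0, 1] T := by decide +kernel
  have i11 : ∀ T, ind T 11 = ![0, 0, 0, 0, 0, 0, 0, 0, 1, 1] T := by decide +kernel
  have i13 : ∀ T, ind T 13 = ![0, 0, 0, 0, 0, 0, 0, 0, 0, 1] T := by decide +kernel
  have h0 := h 0; have h1 := h 1; have h2 := h 2; have h3 := h 3; have h4 := h 4
  have h6 := h 6; have h7 := h 7; have h9 := h 9; have h11 := h 11; have h13 := h 13
  simp only [i0, i1, i2, i3, i4, i6, i7, i9, i11, i13] at h0 h1 h2 h3 h4 h6 h7 h9 h11 h13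
  simp [Fin.sum_univ_succ, Fin.succ] at h0 h1 h2 h3 h4 h6 h7 h9 h11 h13
  funext T
  fin_cases T <;> simp <;> omega

/-- Independence from the coefficient matrix. -/
theorem indep_m (x : Fin 4 → Artin mH4) (m : Fin 4 → Fin 10 → ℤ)
    (hc : ∀ i j, x i * x j = x j * x i)
    (hp : ∀ j, Pure (x j) (fun r => ∑ T, m j T * ind T r))
    (hm : ∀ n : Fin 4 → ℤ,
      (∀ T, n 0 * m 0 T + n 1 * m 1 T + n 2 * m 2 T + n 3 * m 3 T = 0) → n = 0) : Indep4 x := by
  refine indep x _ hc hp fun n hn => hm n fun T => ?_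
  have h := lin (fun T => n 0 * m 0 T + n 1 * m 1 T + n 2 * m 2 T + n 3 * m 3 T) (fun r => by
    have h1 := hn r
    simp only [Finset.mul_sum] at h1
    rw [← Finset.sum_add_distrib, ← Finset.sum_add_distrib, ← Finset.sum_add_distrib] at h1
    rw [← h1]
    exact Finset.sum_congr rfl fun T _ => by ring)
  exact congrFun h T

/-- Conjugation preserves independence. -/
theorem Indep4.conj {G : Type*} [Group G] {x : Fin 4 → G} (h : Indep4 x) (g : G) :
    Indep4 (fun i => g * x i * g⁻¹) := by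
  refine ⟨fun i j => ?_, fun n hn => h.2 n ?_⟩
  · have := h.1 i j
    calc g * x i * g⁻¹ * (g * x j * g⁻¹) = g * (x i * x j) * g⁻¹ := by group
      _ = g * (x j * x i) * g⁻¹ := by rw [this]
      _ = _ := by group
  · simp only [conj_zpow] at hn
    have h2 : g * (x 0 ^ n 0 * x 1 ^ n 1 * x 2 ^ n 2 * x 3 ^ n 3) * g⁻¹ = 1 := by
      rw [← hn]; group
    have h3 : x 0 ^ n 0 * x 1 ^ n 1 * x 2 ^ n 2 * x 3 ^ n 3 = g⁻¹ * 1 * g := by
      rw [← h2]; group
    simpa using h3

theorem sum_single (T : Fin 10) (c : ℤ) (r : Fin 60) :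
    ∑ U, (Pi.single T c : Fin 10 → ℤ) U * ind U r = c * ind T r := by
  rw [Finset.sum_eq_single T]
  · simp
  · intro U _ hU; simp [hU]
  · simp

/-- (a) four distinct commuting twists. -/
theorem indep_four (T : Fin 4 → Fin 10) (hT : Function.Injective T)
    (hc : ∀ i j, z (T i) * z (T j) = z (T j) * z (T i)) (k : Fin 4 → ℤ) (hk : ∀ i, k i ≠ 0)
    (g : Artin mH4) : Indep4 (fun i => g * z (T i) ^ (2 * k i) * g⁻¹) := by
  refine Indep4.conj (x := fun i => z (T i) ^ (2 * k i)) ?_ g
  refine indep_m _ (fun j => Pi.single (T j) (k j * cz (T j))) ?_ ?_ ?_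
  · intro i j
    exact ((show Commute (z (T i)) (z (T j)) from hc i j).zpow_zpow _ _).eq
  · intro j
    have e : (fun r => ∑ U, (Pi.single (T j) (k j * cz (T j)) : Fin 10 → ℤ) U * ind U r)
        = fun r => k j * cz (T j) * ind (T j) r := funext fun r => sum_single _ _ _
    rw [e]
    exact pure_zk (T j) (k j)
  · intro n hn
    have key : ∀ i, n i * (k i * cz (T i)) = 0 := by
      intro i
      have h := hn (T i)
      have hne : ∀ j, j ≠ i → (Pi.single (T j) (k j * cz (T j)) : Fin 10 → ℤ) (T i) = 0 := by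
        intro j hj
        rw [Pi.single_eq_of_ne]
        intro e; exact hj (hT e).symm
      fin_cases i
      · have h1 := hne 1 (by decide); have h2 := hne 2 (by decide); have h3 := hne 3 (by decide)
        simp [-mul_eq_zero] at h h1 h2 h3 ⊢
        rw [h1, h2, h3] at h
        simpa [-mul_eq_zero] using h
      · have h1 := hne 0 (by decide); have h2 := hne 2 (by decide); have h3 := hne 3 (by decide)
        simp [-mul_eq_zero] at h h1 h2 h3 ⊢
        rw [h1, h2, h3] at h
        simpa [-mul_eq_zero] using h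
      · have h1 := hne 0 (by decide); have h2 := hne 1 (by decide); have h3 := hne 3 (by decide)
        simp [-mul_eq_zero] at h h1 h2 h3 ⊢
        rw [h1, h2, h3] at h
        simpa [-mul_eq_zero] using h
      · have h1 := hne 0 (by decide); have h2 := hne 1 (by decide); have h3 := hne 2 (by decide)
        simp [-mul_eq_zero] at h h1 h2 h3 ⊢
        rw [h1, h2, h3] at h
        simpa [-mul_eq_zero] using h
    funext i
    have := key i
    rcases mul_eq_zero.1 this with h | h
    · simpa using h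
    · exact absurd h (mul_ne_zero (hk i) (cz_ne _))

end LK
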