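import Pool.Agent.W_d741_h93.Defs

/-! Linking numbers on the Artin group of type H4: a homomorphism to the group of permutations of
(60 reflections) x Z, and the independence of the twists. -/

namespace LK

open FH

/-- tables of the four generators on the 60 reflections, base 64 -/
def code : Fin 4 → ℕ
  | 0 => 2198836908676877145957453640205851698928922591875251145183564549055899914335883332448059737053372809959186752
  | 1 => 2198828225359325302578421201178369763889893952356517957199198415512833838627568528777895489588510548395057220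
  | 2 => 2198272630762891383379567851733002417499655525580383363995135363791445938477089663493918420913532781203300736
  | 3 => 2162714443305462119731294060279531037931367763096765784515771656871282112870198622139880348638235854646308928

def suppCode : ℕ := 1766847064778384329583297500742918515827483263040609510365433330043946017

/-- action of the generator `i` on the reflections -/
def p (i : Fin 4) (r : Fin 60) : Fin 60 :=
  ⟨((code i >>> (6 * r.val)) % 64) % 60, Nat.mod_lt _ (by norm_num)⟩

/-- `1` at the reflection of the generator `i` -/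
def e (i : Fin 4) (r : Fin 60) : ℤ := if r.val = i.val then 1 else 0

theorem p_p : ∀ i r, p i (p i r) = r := by decide +kernel

theorem e_p : ∀ i r, e i (p i r) = e i r := by decide +kernel

/-- The image of the generator `i`. -/
def S (i : Fin 4) : Equiv.Perm (Fin 60 × ℤ) where
  toFun x := (p i x.1, x.2 + e i x.1)
  invFun x := (p i x.1, x.2 - e i x.1)
  left_inv x := by simp [p_p, e_p]
  right_inv x := by simp [p_p, e_p]

/-- evaluation of a signed word (leftmost letter acts last) at `(r, 0)` -/
def ev : List (Fin 4 × Bool) → Fin 60 → Fin 60 × ℤ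
  | [], r => (r, 0)
  | (i, true) :: t, r => let q := ev t r; (p i q.1, q.2 + e i q.1)
  | (i, false) :: t, r => let q := ev t r; (p i q.1, q.2 - e i q.1)

/-- image of a signed word in a group -/
def wd {G : Type*} [Group G] (f : Fin 4 → G) : List (Fin 4 × Bool) → G
  | [] => 1
  | (i, true) :: t => f i * wd f t
  | (i, false) :: t => (f i)⁻¹ * wd f t

theorem ev_spec (w : List (Fin 4 × Bool)) (r : Fin 60) (n : ℤ) :
    wd S w (r, n) = ((ev w r).1, n + (ev w r).2) := by
  induction w generalizing r n with
  | nil => simp [wd, ev]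
  | cons x t ih =>
    rcases x with ⟨i, b⟩
    cases b
    · simp only [wd, ev, Equiv.Perm.mul_apply, ih]
      change (p i (ev t r).1, n + (ev t r).2 - e i (ev t r).1) = _
      simp only [add_sub_assoc]
    · simp only [wd, ev, Equiv.Perm.mul_apply, ih]
      change (p i (ev t r).1, n + (ev t r).2 + e i (ev t r).1) = _
      simp only [add_assoc]

/-- positive alternating word -/
def altw (i j : Fin 4) : ℕ → List (Fin 4 × Bool)
  | 0 => []
  | n + 1 => (i, true) :: altw j i n

theorem wd_altw {G : Type*} [Group G] (f : Fin 4 → G) (i j : Fin 4) (n : ℕ) :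
    wd f (altw i j n) = alt (f i) (f j) n := by
  induction n generalizing i j with
  | zero => rfl
  | succ n ih => simp [altw, alt, wd, ih]

theorem map_alt {M N : Type*} [Monoid M] [Monoid N] (φ : M →* N) (a b : M) (n : ℕ) :
    φ (alt a b n) = alt (φ a) (φ b) n := by
  induction n generalizing a b with
  | zero => simp [alt]
  | succ n ih => simp [alt, ih]

theorem rel_check : ∀ i j : Fin 4, i ≠ j → ∀ r, ev (altw i j (mH4 i j)) r = ev (altw j i (mH4 i j)) r := by
  decide +kernel

theorem S_rel (i j : Fin 4) (h : i ≠ j) : alt (S i) (S j) (mH4 i j) = alt (S j) (S i) (mH4 i j) := by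
  rw [← wd_altw, ← wd_altw]
  ext x : 1
  rcases x with ⟨r, n⟩
  rw [ev_spec, ev_spec, rel_check i j h r]

/-- The linking homomorphism. -/
def Lam : Artin mH4 →* Equiv.Perm (Fin 60 × ℤ) :=
  PresentedGroup.toGroup (f := S) (by
    rintro _ ⟨i, j, h, rfl⟩
    rw [map_mul, map_inv, map_alt, map_alt, FreeGroup.lift_apply_of, FreeGroup.lift_apply_of, S_rel i j h,
      mul_inv_cancel])

/-- the generators of `A(H4)` -/
abbrev s (i : Fin 4) : Artin mH4 := PresentedGroup.of i

theorem Lam_s (i : Fin 4) : Lam (s i) = S i := by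
  simp [Lam, s]

theorem map_wd {G H : Type*} [Group G] [Group H] (φ : G →* H) (f : Fin 4 → G)
    (w : List (Fin 4 × Bool)) : φ (wd f w) = wd (fun i => φ (f i)) w := by
  induction w with
  | nil => simp [wd]
  | cons x t ih => rcases x with ⟨i, b⟩; cases b <;> simp [wd, ih]

theorem Lam_wd (w : List (Fin 4 × Bool)) : Lam (wd s w) = wd S w := by
  rw [map_wd, show (fun i => Lam (s i)) = S from funext Lam_s]

/-- `x` acts on `(60 reflections) x Z` by the translation `v` -/
def Pure (x : Artin mH4) (v : Fin 60 → ℤ) : Prop := ∀ r n, Lam x (r, n) = (r, n + v r)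

theorem Pure.one : Pure 1 0 := by intro r n; simp

theorem Pure.mul {x y : Artin mH4} {v w : Fin 60 → ℤ} (hx : Pure x v) (hy : Pure y w) :
    Pure (x * y) (v + w) := by
  intro r n
  rw [map_mul, Equiv.Perm.mul_apply, hy, hx]; simp; ring

theorem Pure.inv {x : Artin mH4} {v : Fin 60 → ℤ} (hx : Pure x v) : Pure x⁻¹ (-v) := by
  intro r n
  rw [map_inv, Equiv.Perm.inv_eq_iff_eq, hx]; simp

theorem Pure.pow {x : Artin mH4} {v : Fin 60 → ℤ} (hx : Pure x v) (k : ℕ) :
    Pure (x ^ k) ((k : ℤ) • v) := by
  induction k with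
  | zero => simpa using Pure.one
  | succ k ih =>
    rw [pow_succ]
    have := ih.mul hx
    rwa [show ((k + 1 : ℕ) : ℤ) • v = (k : ℤ) • v + v by push_cast; rw [add_smul, one_smul]]

theorem Pure.zpow {x : Artin mH4} {v : Fin 60 → ℤ} (hx : Pure x v) (k : ℤ) :
    Pure (x ^ k) (k • v) := by
  obtain ⟨m, rfl | rfl⟩ := k.eq_nat_or_neg
  · simpa using hx.pow m
  · simpa using (hx.pow m).inv

theorem Pure.eq {x : Artin mH4} {v w : Fin 60 → ℤ} (hv : Pure x v) (hw : Pure x w) : v = w := by
  funext r
  have h1 := hv r 0
  rw [hw r 0] at h1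
  simpa using (Prod.ext_iff.1 h1).2.symm

theorem pure_wd (w : List (Fin 4 × Bool)) (v : Fin 60 → ℤ) (h : ∀ r, ev w r = (r, v r)) :
    Pure (wd s w) v := by
  intro r n
  rw [Lam_wd, ev_spec, h]

/-- Independence from linear independence of the linking vectors. -/
theorem indep (x : Fin 4 → Artin mH4) (v : Fin 4 → Fin 60 → ℤ)
    (hc : ∀ i j, x i * x j = x j * x i) (hp : ∀ i, Pure (x i) (v i))
    (hv : ∀ n : Fin 4 → ℤ, (∀ r, n 0 * v 0 r + n 1 * v 1 r + n 2 * v 2 r + n 3 * v 3 r = 0) → n = 0) :
    Indep4 x := by
  refine ⟨hc, fun n hn => hv n fun r => ?_⟩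
  have h := ((((hp 0).zpow (n 0)).mul ((hp 1).zpow (n 1))).mul ((hp 2).zpow (n 2))).mul
    ((hp 3).zpow (n 3))
  rw [hn] at h
  have := congrFun (h.eq Pure.one) r
  simpa using this

end LK
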